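import Mathlib

/-!
# An equistable graph that is not weakly CIS (MP_59918e_co, Q1)

The graph has 14 vertices. It is the complement of the line graph of a triangle-free graph `T`
with 9 vertices and 14 edges: its vertices are the edges of `T`, two of them being adjacent when
they have no common endpoint.
-/

set_option autoImplicit false

namespace Pool.Agent.Results.MP_59918e_co.EquistableNotWeaklyCIS

/-- `S` is an inclusion-maximal stable set of `G`. -/
def IsMaxStable {V : Type} (G : SimpleGraph V) (S : Finset V) : Prop :=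
  Maximal (fun s : Finset V => G.IsIndepSet (s : Set V)) S

/-- `C` is an inclusion-maximal clique of `G`. -/
def IsMaxClique {V : Type} (G : SimpleGraph V) (C : Finset V) : Prop :=
  Maximal (fun s : Finset V => G.IsClique (s : Set V)) C

/-- `G` is equistable: some nonnegative real weights give total weight `1` to exactly those
vertex sets that are maximal stable sets. -/
def Equistable {V : Type} (G : SimpleGraph V) : Prop :=
  ∃ φ : V → ℝ, (∀ v, 0 ≤ φ v) ∧ ∀ S : Finset V, IsMaxStable G S ↔ ∑ v ∈ S, φ v = 1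

/-- `G` is weakly CIS: there are an edge covering family `𝒞` of maximal cliques and a non-edge
covering family `𝒮` of maximal stable sets such that every member of `𝒞` meets every member
of `𝒮`. -/
def WeaklyCIS {V : Type} (G : SimpleGraph V) : Prop :=
  ∃ 𝒞 𝒮 : Set (Finset V),
    (∀ C ∈ 𝒞, IsMaxClique G C) ∧
    (∀ S ∈ 𝒮, IsMaxStable G S) ∧
    (∀ u v, G.Adj u v → ∃ C ∈ 𝒞, u ∈ C ∧ v ∈ C) ∧
    (∀ u v, u ≠ v → ¬ G.Adj u v → ∃ S ∈ 𝒮, u ∈ S ∧ v ∈ S) ∧
    (∀ C ∈ 𝒞, ∀ S ∈ 𝒮, ∃ v, v ∈ C ∧ v ∈ S)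

/-- The two endpoints of the `i`-th edge of `T`. -/
def ends : Fin 14 → Finset (Fin 9) :=
  ![{0, 8}, {7, 8}, {0, 5}, {2, 4}, {1, 4}, {2, 6}, {3, 5}, {0, 1}, {2, 5}, {6, 8}, {3, 7},
    {1, 6}, {4, 7}, {3, 6}]

/-- The weight of the `i`-th edge of `T`. -/
def wt : Fin 14 → ℕ := ![39, 48, 31, 54, 38, 27, 50, 52, 41, 35, 44, 32, 30, 28]

/-- The edges of `T` at the vertex `v`. -/
def star (v : Fin 9) : Finset (Fin 14) := Finset.univ.filter fun i => v ∈ ends i

/-- The complement of the line graph of `T`. -/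
def G : SimpleGraph (Fin 14) where
  Adj i j := Disjoint (ends i) (ends j)
  symm := ⟨fun _ _ h => h.symm⟩
  loopless := ⟨fun i h => by
    revert h
    revert i
    decide⟩

instance : DecidableRel G.Adj := fun i j => inferInstanceAs (Decidable (Disjoint (ends i) (ends j)))

lemma mem_star {v : Fin 9} {i : Fin 14} : i ∈ star v ↔ v ∈ ends i := by simp [star]

lemma helly : ∀ i j k : Fin 14, ¬ G.Adj i j → ¬ G.Adj j k → ¬ G.Adj i k →
    ∃ v, v ∈ ends i ∧ v ∈ ends j ∧ v ∈ ends k := by decide +kernel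

lemma out_star : ∀ (v : Fin 9) (i : Fin 14), v ∉ ends i → ∃ j, v ∈ ends j ∧ G.Adj i j := by
  decide +kernel

lemma ends_pair : ∀ i : Fin 14, ∃ a b : Fin 9, ends i = {a, b} := by decide +kernel

lemma not_adj_of_mem {v : Fin 9} {i j : Fin 14} (hi : v ∈ ends i) (hj : v ∈ ends j) :
    ¬ G.Adj i j := fun h => (Finset.disjoint_left.1 h hi) hj

lemma star_indep (v : Fin 9) : G.IsIndepSet (star v : Set (Fin 14)) := by
  intro i hi j hj _
  exact not_adj_of_mem (mem_star.1 hi) (mem_star.1 hj)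

lemma star_max (v : Fin 9) : IsMaxStable G (star v) := by
  refine ⟨star_indep v, fun S hS hle i hi => ?_⟩
  by_contra hni
  have hni' : v ∉ ends i := fun h => hni (mem_star.2 h)
  obtain ⟨j, hj, hij⟩ := out_star v i hni'
  have hjS : j ∈ S := hle (mem_star.2 hj)
  exact hS hi hjS (fun e => by subst e; exact G.loopless.irrefl _ hij) hij

lemma indep_sub {S : Finset (Fin 14)} (hS : G.IsIndepSet (S : Set (Fin 14))) :
    ∃ v, S ⊆ star v := by
  have hna : ∀ i ∈ S, ∀ j ∈ S, ¬ G.Adj i j := by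
    intro i hi j hj h
    exact hS hi hj (fun e => by subst e; exact G.loopless.irrefl _ h) h
  rcases S.eq_empty_or_nonempty with rfl | ⟨i, hi⟩
  · exact ⟨0, by simp⟩
  by_contra hcon
  push Not at hcon
  obtain ⟨a, b, hab⟩ := ends_pair i
  obtain ⟨j, hj, hja⟩ := Finset.not_subset.1 (hcon a)
  obtain ⟨k, hk, hkb⟩ := Finset.not_subset.1 (hcon b)
  obtain ⟨v, h1, h2, h3⟩ := helly i j k (hna i hi j hj) (hna j hj k hk) (hna i hi k hk)
  rw [hab] at h1
  simp only [Finset.mem_insert, Finset.mem_singleton] at h1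
  rcases h1 with rfl | rfl
  · exact hja (mem_star.2 h2)
  · exact hkb (mem_star.2 h3)

lemma isMaxStable_iff (S : Finset (Fin 14)) : IsMaxStable G S ↔ ∃ v, S = star v := by
  constructor
  · intro h
    obtain ⟨v, hv⟩ := indep_sub h.1
    exact ⟨v, h.eq_of_le (star_indep v) hv⟩
  · rintro ⟨v, rfl⟩
    exact star_max v

/-- The vertex set coded by a bit mask. -/
def dec (m : ℕ) : Finset (Fin 14) := Finset.univ.filter fun i => m.testBit i

/-- Weight of the part of a coded set inside `{0, ..., 6}`. -/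
def lo (m : ℕ) : ℕ :=
  (bif m.testBit 0 then 39 else 0) + ((bif m.testBit 1 then 48 else 0) +
  ((bif m.testBit 2 then 31 else 0) + ((bif m.testBit 3 then 54 else 0) +
  ((bif m.testBit 4 then 38 else 0) + ((bif m.testBit 5 then 27 else 0) +
  (bif m.testBit 6 then 50 else 0))))))

/-- Weight of the part of a coded set inside `{7, ..., 13}` (code shifted by 7). -/
def hi (m : ℕ) : ℕ :=
  (bif m.testBit 0 then 52 else 0) + ((bif m.testBit 1 then 41 else 0) +
  ((bif m.testBit 2 then 35 else 0) + ((bif m.testBit 3 then 44 else 0) +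
  ((bif m.testBit 4 then 32 else 0) + ((bif m.testBit 5 then 30 else 0) +
  (bif m.testBit 6 then 28 else 0))))))

/-- The codes of the nine stars. -/
def codes : List ℕ :=
  [2^0 + 2^2 + 2^7, 2^4 + 2^7 + 2^11, 2^3 + 2^5 + 2^8, 2^6 + 2^10 + 2^13, 2^3 + 2^4 + 2^12,
   2^2 + 2^6 + 2^8, 2^5 + 2^9 + 2^11 + 2^13, 2^1 + 2^10 + 2^12, 2^0 + 2^1 + 2^9]

lemma check : ∀ a < 128, ∀ b < 128, (Nat.beq (lo b + hi a) 122) = true →
    codes.contains (128 * a + b) = true := by
  decide +kernel

lemma codes_star : ∀ m ∈ codes, ∃ v, dec m = star v := by decide +kernel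

lemma star_sum : ∀ v, ∑ i ∈ star v, wt i = 122 := by decide +kernel

lemma sum_dec (m : ℕ) : ∑ i ∈ dec m, wt i = lo (m % 128) + hi (m / 128) := by
  have h1 : ∀ i, i < 7 → (m % 128).testBit i = m.testBit i := by
    intro i hi
    have := Nat.testBit_mod_two_pow m 7 i
    rw [show (128 : ℕ) = 2 ^ 7 by norm_num, this]
    simp [hi]
  have h2 : ∀ i, (m / 128).testBit i = m.testBit (i + 7) := by
    intro i
    rw [show (128 : ℕ) = 2 ^ 7 by norm_num, Nat.testBit_div_two_pow]
  unfold dec lo hi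
  rw [Finset.sum_filter]
  simp only [Fin.sum_univ_succ, Fin.sum_univ_zero]
  rw [h1 0 (by norm_num), h1 1 (by norm_num), h1 2 (by norm_num), h1 3 (by norm_num),
    h1 4 (by norm_num), h1 5 (by norm_num), h1 6 (by norm_num)]
  simp only [h2]
  simp only [wt, cond_eq_ite, add_assoc]
  simp

lemma exists_code (S : Finset (Fin 14)) : ∃ m < 128 * 128, dec m = S := by
  refine ⟨Nat.ofBits fun i : Fin 14 => decide (i ∈ S), ?_, ?_⟩
  · exact lt_of_lt_of_eq (Nat.ofBits_lt_two_pow _) (by norm_num)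
  · ext i
    simp only [dec, Finset.mem_filter, Finset.mem_univ, true_and]
    rw [Nat.testBit_ofBits_lt _ _ i.2]
    simp

lemma sum_iff (S : Finset (Fin 14)) : ∑ i ∈ S, wt i = 122 ↔ ∃ v, S = star v := by
  constructor
  · intro h
    obtain ⟨m, hm, rfl⟩ := exists_code S
    rw [sum_dec] at h
    have h1 : 128 * (m / 128) + m % 128 = m := Nat.div_add_mod m 128
    have h2 := check (m / 128) (by omega) (m % 128) (Nat.mod_lt _ (by norm_num))
    rw [h1] at h2
    have h3 : m ∈ codes := List.contains_iff_mem.1 (h2 (by rw [h]; rfl))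
    exact codes_star m h3
  · rintro ⟨v, rfl⟩
    exact star_sum v

theorem equistable : Equistable G := by
  refine ⟨fun i => (wt i : ℝ) / 122, fun i => by positivity, fun S => ?_⟩
  rw [isMaxStable_iff, ← sum_iff, ← Finset.sum_div, div_eq_one_iff_eq (by norm_num)]
  norm_cast

lemma two_edges : ∀ v : Fin 9, ∃ i j : Fin 14, i ≠ j ∧ v ∈ ends i ∧ v ∈ ends j ∧
    ∀ w, w ∈ ends i → w ∈ ends j → w = v := by decide +kernel

lemma two_ends : ∀ i : Fin 14, ∑ v : Fin 9, (if v ∈ ends i then 1 else 0) = 2 := by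
  decide +kernel

theorem not_weaklyCIS : ¬ WeaklyCIS G := by
  rintro ⟨𝒞, 𝒮, hC, hS, hCc, hSc, hX⟩
  -- every star belongs to `𝒮`
  have hstar : ∀ v, star v ∈ 𝒮 := by
    intro v
    obtain ⟨i, j, hij, hi, hj, huniq⟩ := two_edges v
    obtain ⟨S, hSm, hiS, hjS⟩ := hSc i j hij (not_adj_of_mem hi hj)
    obtain ⟨w, rfl⟩ := (isMaxStable_iff S).1 (hS S hSm)
    have : w = v := huniq w (mem_star.1 hiS) (mem_star.1 hjS)
    rwa [this] at hSm
  -- `𝒞` has a member
  obtain ⟨C, hCm, -, -⟩ := hCc 0 3 (by decide)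
  have hcl : G.IsClique (C : Set (Fin 14)) := (hC C hCm).1
  have hone : ∀ v : Fin 9, ∑ i ∈ C, (if v ∈ ends i then 1 else 0) = 1 := by
    intro v
    obtain ⟨i, hiC, hiv⟩ := hX C hCm (star v) (hstar v)
    rw [mem_star] at hiv
    rw [Finset.sum_eq_single_of_mem i hiC, if_pos hiv]
    intro j hjC hji
    rw [if_neg]
    intro hjv
    exact not_adj_of_mem hjv hiv (hcl hjC hiC hji)
  have htot : ∑ v : Fin 9, ∑ i ∈ C, (if v ∈ ends i then 1 else 0) = 9 := by
    simp only [hone]
    simp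
  rw [Finset.sum_comm] at htot
  have htwo : ∀ i ∈ C, ∑ v : Fin 9, (if v ∈ ends i then 1 else 0) = 2 := fun i _ => two_ends i
  rw [Finset.sum_congr rfl htwo, Finset.sum_const, smul_eq_mul] at htot
  omega

/-- There is a graph (on 14 vertices) that is equistable but not weakly CIS. -/
theorem result : ∃ G : SimpleGraph (Fin 14), Equistable G ∧ ¬ WeaklyCIS G :=
  ⟨G, equistable, not_weaklyCIS⟩

end Pool.Agent.Results.MP_59918e_co.EquistableNotWeaklyCIS
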